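import Mathlib
import Pool.Agent.H50.Tor7
import Pool.Agent.H50.Tor8

namespace Pool.Agent.Results.MP_76aa63_al.Degree

open Finset MvPolynomial Pool.Agent.H50.Tor Pointwise Filter

noncomputable def uu (i : Fin 8) : Fin 8 →₀ ℕ := jj 0 + Finsupp.single i 1

def VV : Finset (Fin 8) := {2, 3, 4, 5}

def GG : Set (Fin 8 →₀ ℕ) := {gg 4 0 0, gg 4 2 0, gg 4 4 0} ∪ (fun i => gg 4 1 (uu i)) '' VV ∪
  Set.range fun t => gg 4 3 (jj t)

lemma uu6 {i : Fin 8} (h : i ∈ VV) : uu i 6 = 0 ∧ uu i 7 = 0 := by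
  have : i ≠ 6 ∧ i ≠ 7 := by revert i; decide
  simp [uu, jj6, jj7, this]

lemma g_yd : ∀ g ∈ GG, yd g = 4 := by
  rintro _ (((rfl | rfl | rfl) | ⟨i, h, rfl⟩) | ⟨t, rfl⟩)
  exacts [gg_yd rfl rfl (by omega), gg_yd rfl rfl (by omega), gg_yd rfl rfl (by omega),
    gg_yd (uu6 h).1 (uu6 h).2 (by omega), gg_yd (jj6 t) (jj7 t) (by omega)]

lemma g0 : gg 4 0 0 ∈ GG := by simp [GG]
lemma g2 : gg 4 2 0 ∈ GG := by simp [GG]
lemma g4 : gg 4 4 0 ∈ GG := by simp [GG]

lemma mem {x : Fin 8 →₀ ℕ} {r : ℕ} (hr : gg 4 r x ∈ GG) (h4 : r ≤ 4) (l : ℕ) :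
    ∀ k ≤ 2 * l, gg ((l + 1) * 4) (r + 2 * k) x ∈ (l + 1) • GG := by
  induction l with
  | zero => intro k h; simpa [nonpos_iff_eq_zero.1 h] using hr
  | succ l ih =>
    intro k h
    obtain ⟨c, k', a, b, d, e⟩ : ∃ c k', gg 4 c 0 ∈ GG ∧ c ≤ 4 ∧ k' ≤ 2 * l ∧
        r + 2 * k = r + 2 * k' + c := by
      rcases (by omega : k ≤ 2 * l ∨ k = 2 * l + 1 ∨ k = 2 * l + 2) with x | x | x
      exacts [⟨0, k, g0, by omega, x, rfl⟩, ⟨2, 2 * l, g2, by omega, le_rfl, by omega⟩,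
        ⟨4, 2 * l, g4, le_rfl, le_rfl, by omega⟩]
    have := Set.add_mem_add (ih k' d) a
    rwa [gg_add _ _ (by omega) b, add_zero, ← succ_nsmul, ← e, ← add_one_mul] at this

def In (β : Fin 8 →₀ ℕ) : Prop :=
  β 6 % 2 = 0 ∨ (β 6 = 1 ∧ ∃ i ∈ VV, uu i ≤ β) ∨ (3 ≤ β 6 ∧ ∃ t, jj t ≤ β)

lemma inv (l : ℕ) : ∀ g ∈ l • GG, In g := by
  have k : ∀ g, In g → g 6 % 2 = 1 → ∃ t, jj t ≤ g := by
    rintro g (x | ⟨-, i, -, x⟩ | ⟨-, x⟩) y
    exacts [by omega, ⟨0, le_self_add.trans x⟩, x]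
  induction l with
  | zero => intro g x; rw [zero_nsmul, Set.mem_zero] at x; simp [x, In]
  | succ l ih =>
    rw [succ_nsmul]
    rintro _ ⟨a, ha, b, hb, rfl⟩
    have ha := ih a ha
    have hb : In b := by
      rcases hb with ((rfl | rfl | rfl) | ⟨i, h, rfl⟩) | ⟨t, rfl⟩
      · simp [In, gg6]
      · simp [In, gg6]
      · simp [In, gg6]
      · exact Or.inr (Or.inl ⟨gg6 _ _ (uu6 h).1, i, h, le_add_self⟩)
      · exact Or.inr (Or.inr ⟨(gg6 _ _ (jj6 t)).ge, t, le_add_self⟩)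
    simp only [In, Finsupp.add_apply]
    rcases (by omega : (a 6 + b 6) % 2 = 0 ∨ (a 6 = 1 ∧ b 6 = 0) ∨ (a 6 = 0 ∧ b 6 = 1) ∨
      (3 ≤ a 6 + b 6 ∧ (a 6 % 2 = 1 ∨ b 6 % 2 = 1))) with x | x | x | ⟨x, y | y⟩
    · exact Or.inl x
    · rcases ha with y | ⟨-, i, y, z⟩ | y <;> try omega
      exact Or.inr (Or.inl ⟨by omega, i, y, z.trans le_self_add⟩)
    · rcases hb with y | ⟨-, i, y, z⟩ | y <;> try omega
      exact Or.inr (Or.inl ⟨by omega, i, y, z.trans le_add_self⟩)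
    · obtain ⟨t, z⟩ := k a ha y
      exact Or.inr (Or.inr ⟨x, t, z.trans le_self_add⟩)
    · obtain ⟨t, z⟩ := k b hb y
      exact Or.inr (Or.inr ⟨x, t, z.trans le_add_self⟩)

lemma inU (l : ℕ) {β : Fin 8 →₀ ℕ} (h : yd β = (l + 1) * 4) :
    (∃ g ∈ (l + 1) • GG, g ≤ β) ↔ In β := by
  have h' : β 6 + β 7 = (l + 1) * 4 := h
  constructor
  · rintro ⟨g, a, b⟩
    have c : g 6 + g 7 = _ := yd_ns g_yd _ g a
    have d : g 6 = β 6 := by have := b 6; have := b 7; omega
    unfold In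
    rw [← d]
    exact (inv _ g a).imp_right (Or.imp (fun ⟨x, i, y, z⟩ => ⟨x, i, y, z.trans b⟩)
      fun ⟨x, t, z⟩ => ⟨x, t, z.trans b⟩)
  · rintro (x | ⟨x, i, y, z⟩ | ⟨x, t, z⟩)
    · refine ⟨_, ?_, gg_le rfl rfl h zero_le⟩
      rcases (by omega : β 6 = 0 + 2 * 0 ∨ β 6 = 2 + 2 * 0 ∨ (β 6 = 4 + 2 * ((β 6 - 4) / 2) ∧
        4 ≤ β 6)) with y | y | y
      · rw [y]; exact mem g0 (by omega) l _ (by omega)
      · rw [y]; exact mem g2 (by omega) l _ (by omega)
      · rw [y.1]; exact mem g4 (by omega) l _ (by omega)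
    · refine ⟨_, ?_, gg_le (uu6 y).1 (uu6 y).2 h z⟩
      rw [x]; exact mem (Or.inl (Or.inr ⟨i, y, rfl⟩)) (by omega) l 0 (by omega)
    · by_cases y : β 6 % 2 = 0
      · refine ⟨_, ?_, gg_le rfl rfl h zero_le⟩
        rw [show β 6 = 4 + 2 * ((β 6 - 4) / 2) by omega]; exact mem g4 (by omega) l _ (by omega)
      · refine ⟨_, ?_, gg_le (jj6 t) (jj7 t) h z⟩
        rw [show β 6 = 3 + 2 * ((β 6 - 3) / 2) by omega]
        exact mem (Or.inr ⟨t, rfl⟩) (by omega) l _ (by omega)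

lemma LL_iff (l : ℕ) (α : Fin 8 →₀ ℕ) (τ : Finset (Fin 8)) :
    LL ((l + 1) * 4) ((l + 1) • GG) α τ ↔ yd (α - ind τ) < (l + 1) * 4 ∨
      (yd (α - ind τ) = (l + 1) * 4 ∧ ¬ In (α - ind τ)) := by
  rw [LL]
  rcases lt_trichotomy (yd (α - ind τ)) ((l + 1) * 4) with x | x | x
  · refine iff_of_true (fun y => y.elim (by omega) fun ⟨g, a, b⟩ => ?_) (Or.inl x)
    have := yd_ns g_yd _ g a
    have := b 6; have := b 7
    unfold yd at *; omega
  · rw [inU l x]; simp [x]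
  · exact iff_of_false (fun y => y (Or.inl x)) (by omega)

lemma all {K : Type} [Field K] {E : Finset (Fin 8)} {L : Finset (Fin 8) → Prop} {j : ℕ}
    (h : ∀ ρ ⊆ E, ρ.card = j → L ρ) : Van K E L (j + 1) := by
  rcases E.eq_empty_or_nonempty with rfl | ne
  · exact van_empty fun τ x y => by rw [subset_empty.1 x, card_empty] at y; omega
  · exact van_true ne fun ρ x y => h ρ x (by omega)

lemma box {K : Type} [Field K] (l : ℕ) (α : Fin 8 →₀ ℕ)
    (h : ¬ Van K α.support (LL ((l + 1) * 4) ((l + 1) • GG) α) 6) :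
    (l + 1) * 4 ≤ yd α ∧ yd α ≤ (l + 1) * 4 + 2 ∧ ∀ i ∈ XX, α i ≤ 2 := by
  have y : ∀ τ, yd (α - ind τ) ≤ yd α ∧ yd α ≤ yd (α - ind τ) + 2 := fun τ => by
    simp only [yd, Finsupp.tsub_apply, ind_ap]; split_ifs <;> omega
  refine ⟨by_contra fun x => h (all fun ρ _ _ => (LL_iff l α ρ).2 (Or.inl ?_)),
    by_contra fun x => h (van_empty fun ρ _ _ z => ?_), fun i a => by_contra fun x => h
      (van_cone (e := i) (by simp; omega) (fun τ _ z => ?_) _)⟩
  · have := y ρ; omega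
  · have := y ρ
    have := (LL_iff l α ρ).1 z; omega
  · have e6 : (α - ind (τ.erase i)) 6 = (α - ind τ) 6 := by simp [ind_ap, (xx_iff.1 a).1.symm]
    have e7 : (α - ind (τ.erase i)) 7 = (α - ind τ) 7 := by simp [ind_ap, (xx_iff.1 a).2.symm]
    rw [LL_iff, In, yd] at z ⊢
    rw [e6, e7]
    refine z.imp_right (And.imp_right (mt (Or.imp_right (Or.imp
      (fun ⟨b, k, c, d⟩ => ⟨b, k, c, le_er ?_ d⟩) fun ⟨b, t, d⟩ => ⟨b, t, le_er ?_ d⟩))))
    · have := jj_le 0 i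
      simp only [uu, Finsupp.add_apply, Finsupp.single_apply]; split_ifs <;> omega
    · have := jj_le t i; omega

lemma boxQ (l : ℕ) (α : Fin 8 →₀ ℕ) (h : 4 ≤ α 6) :
    Van ℚ α.support (LL ((l + 1) * 4) ((l + 1) • GG) α) 6 := by
  refine split2 fun s hs i hi => ?_
  have c : s.card ≤ 2 := (card_le_card (hs.trans inter_subset_right)).trans card_le_two
  obtain ⟨i, rfl⟩ : ∃ k, i = k + 1 := ⟨i - 1, by omega⟩
  set E := (α.support.erase 6).erase 7 with hE
  have a : 3 ≤ (α - ind s) 6 := by simp only [Finsupp.tsub_apply, ind_ap]; split_ifs <;> omega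
  have sub : E ⊆ XX := fun k x => by simp only [hE, mem_erase] at x; rw [xx_iff]; tauto
  by_cases x : yd (α - ind s) = (l + 1) * 4 ∧ (α - ind s) 6 % 2 = 1
  swap
  · by_cases y : yd (α - ind s) < (l + 1) * 4
    · refine all fun ρ z _ => (LL_iff _ _ _).2 (Or.inl ?_)
      rwa [yd, (yd_s hs z).1, (yd_s hs z).2.1]
    · refine van_empty fun ρ z _ w => ?_
      rw [LL_iff, In, yd, (yd_s hs z).1, (yd_s hs z).2.1] at w
      unfold yd at x y; omega
  refine Van.congr (L := fun τ => ¬ ∃ t, jj t ≤ α - ind (s ∪ τ)) ?_ fun τ z => by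
    have := x.1
    rw [LL_iff, In, yd, (yd_s hs z).1, (yd_s hs z).2.1]
    unfold yd at this
    constructor
    · rintro (w | w) v
      exacts [by omega, w.2 (Or.inr (Or.inr ⟨a, v⟩))]
    · refine fun w => Or.inr ⟨this, ?_⟩
      rintro (v | v | v)
      exacts [by omega, by omega, w v.2]
  have ns : ∀ k ∈ XX, k ∉ s := fun k y z => by
    have := (mem_inter.1 (hs z)).2
    rw [xx_iff] at y; simp [y] at this
  by_cases y : ∃ k ∈ E, 2 ≤ α k
  · obtain ⟨k, y, z⟩ := y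
    refine van_cone y (fun τ _ w ⟨t, v⟩ => w ⟨t, le_er (i := k) (by have := jj_le t k; omega) ?_⟩) _
    rwa [erase_union_distrib, erase_eq_of_notMem (ns k (sub y))]
  have k : ∀ t τ, jj t ≤ α - ind (s ∪ τ) ↔ XX \ TT t ⊆ E \ τ := fun t τ => by
    refine ⟨fun z k w => ?_, fun z k => ?_⟩
    · have := z k
      have u := xx_iff.1 (mem_sdiff.1 w).1
      rw [jj, ind_ap, if_pos w, Finsupp.tsub_apply, ind_ap] at this
      have m : k ∈ E := by simp [hE, u]; omega
      refine mem_sdiff.2 ⟨m, fun v => y ⟨k, m, ?_⟩⟩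
      rw [if_pos (mem_union_right _ v)] at this; omega
    · rw [jj, ind_ap]
      split_ifs with w
      · have := mem_sdiff.1 (z w)
        have u := Finsupp.mem_support_iff.1 (mem_of_mem_erase (mem_of_mem_erase this.1))
        rw [Finsupp.tsub_apply, ind_ap, if_neg (by simp [this.2, ns k (sub this.1)])]; omega
      · exact Nat.zero_le _
  simp only [k]
  by_cases z : E = XX ∧ i = 3
  · rw [z.1, z.2]
    refine vanQ.congr fun τ w => not_congr (exists_congr fun t => ?_)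
    exact ⟨fun v m u => by_contra fun r => (mem_sdiff.1 (v (mem_sdiff.2 ⟨w u, r⟩))).2 u,
      sdiff_subset_sdiff subset_rfl⟩
  · refine all fun ρ w v ⟨t, u⟩ => z ?_
    have := card_le_card u
    have e : ∀ t, (XX \ TT t).card = 3 := by decide
    have e6 : XX.card = 6 := by decide
    have := card_le_card sub
    rw [e, card_sdiff_of_subset w] at *
    exact ⟨eq_of_subset_of_card_le sub (by omega), by omega⟩

theorem result : ∃ S : Set (Fin 8 →₀ ℕ), S.Finite ∧
    (∃ C, ∀ l ≥ 1, 1 ≤ tbetti (monI ℚ S ^ l) 5 ∧ tbetti (monI ℚ S ^ l) 5 ≤ C ∧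
      l ≤ tbetti (monI (ZMod 2) S ^ l) 5) ∧
    ∀ P Q : Polynomial ℚ, (∀ᶠ l : ℕ in atTop, P.eval (l : ℚ) = tbetti (monI ℚ S ^ l) 5) →
      (∀ᶠ l : ℕ in atTop, Q.eval (l : ℚ) = tbetti (monI (ZMod 2) S ^ l) 5) →
        P.degree = 0 ∧ 1 ≤ Q.degree := by
  simp only [tbetti_eq]
  have hp : Finsupp.single 6 4 ∈ GG := by simpa [gg] using g4
  have hq : Finsupp.single 7 4 ∈ GG := by simpa [gg] using g0
  have mb := fun (K : Type) [Field K] l α => mb_iff (K := K) (by omega) g_yd hp hq l 5 α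
  have main : ∃ C, ∀ l ≥ 1, 1 ≤ betti (monI ℚ (SS 4 GG) ^ l) 5 ∧
      betti (monI ℚ (SS 4 GG) ^ l) 5 ≤ C ∧ l ≤ betti (monI (ZMod 2) (SS 4 GG) ^ l) 5 := by
    refine ⟨6 ^ 8 * 2 ^ 8, fun l hl => ?_⟩
    obtain ⟨l, rfl⟩ : ∃ k, l = k + 1 := ⟨l - 1, by omega⟩
    simp only [betti, monI_pow, mbetti_def]
    have fin : ∀ (K : Type) [Field K], (Function.support fun α : Fin 8 →₀ ℕ => hdim K α.support
        (fun τ => ∃ s ∈ (l + 1) • SS 4 GG, s ≤ α - ind τ) 5).Finite := fun K _ => by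
      refine (Set.finite_Icc 0 (Finsupp.equivFunOnFinite.symm fun _ => (l + 1) * 4 + 2)).subset
        fun α x => ⟨zero_le, fun i => ?_⟩
      obtain ⟨-, a, b⟩ := box l α fun y => x ((mb K l α).2 y)
      have := b i
      rw [xx_iff] at this
      simp only [Finsupp.equivFunOnFinite_symm_apply_apply, yd] at a ⊢
      by_cases y : i = 6 ∨ i = 7
      · rcases y with rfl | rfl <;> omega
      · have := this (by tauto); omega
    refine ⟨?_, ?_, ?_⟩
    · set α := gg ((l + 1) * 4 + 2) 2 (jj 0 + ind VV) with hα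
      refine le_trans (Nat.one_le_iff_ne_zero.2 fun x => ?_)
        (single_le_finsum α (fin ℚ) fun _ => Nat.zero_le _)
      have v : ∀ i, α i = ![0, 0, 1, 2, 2, 2, 2, (l + 1) * 4] i := fun i => by
        fin_cases i <;> simp [hα, gg, jj, ind_ap, VV, XX, TT]
      have e : α.support = {2, 3, 4, 5, 6, 7} := by
        ext i; rw [Finsupp.mem_support_iff, v]; fin_cases i <;> simp
      have w : ∀ τ, LL ((l + 1) * 4) ((l + 1) • GG) α τ ↔ {2, 3, 4, 5, 6, 7} ⊆ τ := fun τ => by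
        simp only [LL_iff, In, yd, Finsupp.le_def, Fin.forall_fin_succ, Finsupp.tsub_apply, v,
          ind_ap, uu, jj, VV, insert_subset_iff, singleton_subset_iff, Finsupp.add_apply]
        by_cases a6 : 6 ∈ τ <;> by_cases a7 : 7 ∈ τ <;> by_cases a2 : 2 ∈ τ <;>
          by_cases a3 : 3 ∈ τ <;> by_cases a4 : 4 ∈ τ <;> by_cases a5 : 5 ∈ τ <;>
          simp [*, XX, TT] <;> omega
      obtain ⟨b, hb⟩ := (mb ℚ l α).1 x 1 fun ρ _ y z => by
        have := card_le_card ((w ρ).1 y)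
        rw [show ({2, 3, 4, 5, 6, 7} : Finset (Fin 8)).card = 6 by decide] at this; omega
      have := hb _ subset_rfl ((w _).2 e.ge) (by rw [e]; decide)
      simp [bd] at this
    · rw [finsum_eq_sum_of_support_subset (s := univ.image fun v : Fin 8 → Fin 6 =>
        Finsupp.equivFunOnFinite.symm fun i => if i = 7 then (l + 1) * 4 - 3 + v i else v i)]
      · refine (sum_le_card_nsmul _ _ _ fun _ _ => hdim_le 5).trans
          (Nat.mul_le_mul_right _ (card_image_le.trans (by simp)))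
      · intro α x
        have y := fun y => x ((mb ℚ l α).2 y)
        obtain ⟨a, b, c⟩ := box l α y
        have d : α 6 < 4 := not_le.1 fun z => y (boxQ l α z)
        unfold yd at a b
        refine mem_coe.2 (mem_image.2 ⟨fun i => ⟨if i = 7 then α 7 - ((l + 1) * 4 - 3) else α i,
          ?_⟩, mem_univ _, Finsupp.ext fun i => ?_⟩)
        · split_ifs with z
          · omega
          · by_cases w : i = 6
            · subst w; omega
            · have := c i (xx_iff.2 ⟨w, z⟩); omega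
        · simp only [Finsupp.equivFunOnFinite_symm_apply_apply]
          split_ifs with z
          · subst z; omega
          · rfl
    · rw [finsum_eq_sum _ (fin _)]
      have k : ∀ k ∈ range (l + 1), hdim (ZMod 2) _ _ 5 ≠ 0 := fun k x y =>
        (dep' (a := 2 * k + 3) (by simp at x; omega) fun β a b => by
          rw [inU l a, In, b]
          exact ⟨fun z => z.elim (by omega) fun z => z.elim (by omega) And.right,
            fun z => Or.inr (Or.inr ⟨by omega, z⟩)⟩).2 ((mb _ l _).1 y)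
      refine le_trans ?_ (sum_le_sum_of_subset (s := (range (l + 1)).image fun k =>
        gg ((l + 1) * 4 + 2) (2 * k + 3 + 1) (ind XX)) fun α x => ?_)
      · rw [sum_image fun a _ b _ e => by
          have := congrArg (· 6) e
          simp only [gg6 _ _ (show ind XX 6 = 0 by simp [ind_ap, xx_iff])] at this; omega]
        simpa using card_nsmul_le_sum _ _ 1 fun a x => Nat.one_le_iff_ne_zero.2 (k a x)
      · obtain ⟨a, y, rfl⟩ := mem_image.1 x
        exact (Set.Finite.mem_toFinset _).2 (k a y)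
  refine ⟨SS 4 GG, (((Set.toFinite _).union (Set.toFinite _)).union (Set.finite_range _)).union
    ((Set.finite_Iic _).image _), main, fun P Q h1 h2 => ⟨?_, ?_⟩⟩
  · obtain ⟨C, hC⟩ := main
    refine le_antisymm (not_lt.1 fun x => ?_) (Polynomial.zero_le_degree_iff.2 fun x => ?_)
    · obtain ⟨l, a, b, c⟩ := (h1.and ((eventually_ge_atTop 1).and (((P.abs_tendsto_atTop x).comp
        tendsto_natCast_atTop_atTop).eventually_gt_atTop C))).exists
      simp only [Function.comp, a, Nat.abs_cast, Nat.cast_lt] at c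
      exact absurd (hC l b).2.1 (not_le.2 c)
    · obtain ⟨l, a, b⟩ := (h1.and (eventually_ge_atTop 1)).exists
      have := (hC l b).1
      rw [x, Polynomial.eval_zero, eq_comm, Nat.cast_eq_zero] at a; omega
  · obtain ⟨C, hC⟩ := main
    by_contra x
    have e := Polynomial.eq_C_of_degree_le_zero (Nat.WithBot.lt_one_iff_le_zero.1 (not_le.1 x))
    obtain ⟨l, a, b, c⟩ := (h2.and ((eventually_ge_atTop 1).and
      (tendsto_natCast_atTop_atTop.eventually_gt_atTop (Q.coeff 0)))).exists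
    rw [e, Polynomial.eval_C] at a
    rw [a, Nat.cast_lt] at c
    exact absurd (hC l b).2.2 (not_le.2 c)

end Pool.Agent.Results.MP_76aa63_al.Degree
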